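import Mathlib
import Pool.Agent.K1H89.UB.U24

set_option autoImplicit false

/-!
# Simultaneous prime values along `x + y = n` for EVERY `n` in a long range, for almost all families
-/

namespace Pool.Agent.Results.MP_0da313_nt.EveryTotal

open Finset

/-- the value `f(x, y)` -/
noncomputable def val (f : MvPolynomial (Fin 2) ℤ) (x y : ℤ) : ℤ := MvPolynomial.eval ![x, y] f

/-- the polynomials `f_k(x, y) = g_k(x, y) + ∑_{j ≤ d} c_{kj} x ^ j` -/
noncomputable def system {m d : ℕ} (g : Fin m → MvPolynomial (Fin 2) ℤ) (c : Fin m → Fin (d + 1) → ℤ) (k : Fin m) :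
    MvPolynomial (Fin 2) ℤ := g k + ∑ j : Fin (d + 1), MvPolynomial.C (c k j) * MvPolynomial.X 0 ^ (j : ℕ)

/-- all the coefficient vectors with `|c_{kj}| ≤ H` -/
noncomputable def family (m d H : ℕ) : Finset (Fin m → Fin (d + 1) → ℤ) :=
  Fintype.piFinset (fun _ => Fintype.piFinset (fun _ => Icc (-(H : ℤ)) H))

/-- the number of the residue classes `x` modulo `p` such that `p` divides `f_1(x, n - x) ⋯ f_m(x, n - x)` -/
noncomputable def omega {m : ℕ} (f : Fin m → MvPolynomial (Fin 2) ℤ) (n p : ℕ) : ℕ :=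
  ((range p).filter (fun x : ℕ => (p : ℤ) ∣ ∏ k, val (f k) x ((n : ℤ) - x))).card

/-- the singular series of the polynomials `f_k(x, n - x)`, the product over the primes `p ≤ w` -/
noncomputable def constant {m : ℕ} (f : Fin m → MvPolynomial (Fin 2) ℤ) (n w : ℕ) : ℝ :=
  ∏ p ∈ (Icc 1 w).filter Nat.Prime, (1 - (omega f n p : ℝ) / p) / (1 - 1 / (p : ℝ)) ^ m

open Classical in
/-- the number of the representations `n = x + y` in positive integers with `u < x ≤ v` such that all the values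
`|f_k(x, y)|` are prime -/
noncomputable def count {m : ℕ} (f : Fin m → MvPolynomial (Fin 2) ℤ) (n u v : ℕ) : ℕ :=
  ((Ioc u v).filter (fun x : ℕ => ∃ y : ℕ, 1 ≤ y ∧ x + y = n ∧ ∀ k, (val (f k) x y).natAbs.Prime)).card

/-- no prime `p > B` divides `f_1(x, n - x) ⋯ f_m(x, n - x)` for all `x` -/
def NoFixed {m : ℕ} (f : Fin m → MvPolynomial (Fin 2) ℤ) (n : ℕ) (B : ℝ) : Prop :=
  ∀ p : ℕ, p.Prime → B < p → ∃ x : ℕ, ¬ (p : ℤ) ∣ ∏ k, val (f k) x ((n : ℤ) - x)

/-- Every positive integer `n ≤ (log H) ^ A` such that no prime `p > (log log H) / 4` divides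
`f_1(x, n - x) ⋯ f_m(x, n - x)` for all `x` has the expected number of representations `n = x + y` with all
`|f_k(x, y)|` prime, and this holds in every interval `u < x ≤ v < n` of length at least `(log H) ^ (m + δ)`.
Every integer `n` with `(log H) ^ (m + δ) + 1 ≤ n ≤ (log H) ^ A` such that no prime divides
`f_1(x, n - x) ⋯ f_m(x, n - x)` for all `x` has such a representation. -/
def Good {m : ℕ} (f : Fin m → MvPolynomial (Fin 2) ℤ) (H A : ℕ) (δ ε : ℝ) : Prop :=
  (∀ n : ℕ, (n : ℝ) ≤ Real.log H ^ A → NoFixed f n (Real.log (Real.log H) / 4) →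
    ∀ u v : ℕ, v < n → (u : ℝ) + Real.log H ^ ((m : ℝ) + δ) ≤ v →
      |(count f n u v : ℝ) - constant f n ⌊Real.log (Real.log H) / 4⌋₊ * ((v - u : ℕ) : ℝ) / Real.log H ^ m| ≤
        ε * (constant f n ⌊Real.log (Real.log H) / 4⌋₊ * ((v - u : ℕ) : ℝ) / Real.log H ^ m)) ∧
  (∀ n : ℕ, Real.log H ^ ((m : ℝ) + δ) + 1 ≤ n → (n : ℝ) ≤ Real.log H ^ A → NoFixed f n 0 →
    ∃ x y : ℕ, 1 ≤ x ∧ 1 ≤ y ∧ x + y = n ∧ ∀ k, (val (f k) x y).natAbs.Prime)

open Pool.Agent.K1H89 Pool.Agent.K1H89.UB Pool.Agent.K1H89.PL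

/-- the polynomial `g(x, n - x)` -/
noncomputable def line (g : MvPolynomial (Fin 2) ℤ) (n : ℕ) : Polynomial ℤ :=
  MvPolynomial.aeval (![Polynomial.X, Polynomial.C (n : ℤ) - Polynomial.X] : Fin 2 → Polynomial ℤ) g

lemma line_eval (g : MvPolynomial (Fin 2) ℤ) (n : ℕ) (x : ℤ) : (line g n).eval x = val g x ((n : ℤ) - x) := by
  unfold line val
  rw [← Polynomial.coe_evalRingHom, MvPolynomial.aeval_def, MvPolynomial.hom_eval₂]
  have e1 : (Polynomial.evalRingHom x).comp (algebraMap ℤ (Polynomial ℤ)) = RingHom.id ℤ := by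
    ext; simp
  rw [e1]
  rw [← MvPolynomial.eval₂_id]
  congr 1
  funext i
  fin_cases i
  · simp
  · simp

lemma line_deg (g : MvPolynomial (Fin 2) ℤ) (n D : ℕ) (h : g.totalDegree ≤ D) : (line g n).natDegree ≤ D := by
  unfold line
  have := MvPolynomial.aeval_natDegree_le g h (![Polynomial.X, Polynomial.C (n : ℤ) - Polynomial.X] : Fin 2 → Polynomial ℤ)
    (n := 1) (fun i => by
      fin_cases i
      · exact Polynomial.natDegree_X_le
      · refine (Polynomial.natDegree_sub_le _ _).trans ?_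
        simp [Polynomial.natDegree_X_le])
  rwa [mul_one] at this

lemma val_system {m d : ℕ} (g : Fin m → MvPolynomial (Fin 2) ℤ) (c : Fin m → Fin (d + 1) → ℤ) (k : Fin m) (x y : ℤ) :
    val (system g c k) x y = val (g k) x y + ∑ j, c k j * x ^ (j : ℕ) := by
  unfold val system
  rw [map_add, map_sum]
  congr 1
  apply sum_congr rfl
  intro j _
  simp

lemma pv_eq {m d : ℕ} (g : Fin m → MvPolynomial (Fin 2) ℤ) (c : Fin m → Fin (d + 1) → ℤ) (k : Fin m) (n x : ℕ) :
    pv (pcen (fun k => line (g k) n) k) (c k) x = val (system g c k) x ((n : ℤ) - x) := by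
  rw [val_system]
  unfold pv pcen
  rw [line_eval]

lemma omega_eq {m d : ℕ} (g : Fin m → MvPolynomial (Fin 2) ℤ) (c : Fin m → Fin (d + 1) → ℤ) (n : ℕ) {p : ℕ} (hp : p.Prime) :
    kc (pcen (fun k => line (g k) n)) p c = omega (system g c) n p := by
  rw [kc_eq' (v := pcen (fun k => line (g k) n)) c hp]
  unfold omega FF
  simp only [pv_eq]

lemma constant_eq {m d : ℕ} (g : Fin m → MvPolynomial (Fin 2) ℤ) (c : Fin m → Fin (d + 1) → ℤ) (n w : ℕ) :
    CF (pcen (fun k => line (g k) n)) w c = constant (system g c) n w := by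
  unfold CF constant Dw PL.MP prN
  rw [← prod_pow, ← prod_mul_distrib]
  apply prod_congr rfl
  intro p hp
  rw [mem_filter] at hp
  rw [omega_eq g c n hp.2, inv_pow, one_div, div_eq_mul_inv _ ((1 - (p : ℝ)⁻¹) ^ m), mul_comm]

lemma count_eq {m d : ℕ} (g : Fin m → MvPolynomial (Fin 2) ℤ) (c : Fin m → Fin (d + 1) → ℤ) (n u v : ℕ) (huv : u ≤ v) (hv : v < n) :
    pc (pcen (fun k => line (g k) n)) c u (v - u) = count (system g c) n u v := by
  classical
  unfold pc count
  rw [show u + (v - u) = v by omega]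
  congr 1
  apply filter_congr
  intro x hx
  rw [mem_Ioc] at hx
  simp only [pv_eq]
  constructor
  · intro h
    refine ⟨n - x, by omega, by omega, fun k => ?_⟩
    have := h k
    rwa [show ((n - x : ℕ) : ℤ) = (n : ℤ) - x by push_cast [Nat.cast_sub (by omega : x ≤ n)]; ring]
  · rintro ⟨y, _, hy, h⟩ k
    have := h k
    rwa [show ((n : ℤ) - x) = (y : ℤ) by rw [← hy]; push_cast; ring]

lemma kc_ne {m d : ℕ} (g : Fin m → MvPolynomial (Fin 2) ℤ) (c : Fin m → Fin (d + 1) → ℤ) (n : ℕ) {p : ℕ} (hp : p.Prime)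
    (h : ∃ x : ℕ, ¬ (p : ℤ) ∣ ∏ k, val (system g c k) x ((n : ℤ) - x)) : kc (pcen (fun k => line (g k) n)) p c ≠ p := by
  obtain ⟨x, hx⟩ := h
  intro hk
  rw [omega_eq g c n hp] at hk
  unfold omega at hk
  have h4 : (range p).filter (fun x : ℕ => (p : ℤ) ∣ ∏ k, val (system g c k) x ((n : ℤ) - x)) = range p := by
    apply eq_of_subset_of_card_le (filter_subset _ _)
    rw [hk, card_range]
  have h5 : x % p ∈ (range p).filter (fun x : ℕ => (p : ℤ) ∣ ∏ k, val (system g c k) x ((n : ℤ) - x)) := by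
    rw [h4, mem_range]
    exact Nat.mod_lt _ hp.pos
  have h6 := (mem_filter.1 h5).2
  apply hx
  have e1 : ∀ x : ℕ, ∏ k, val (system g c k) x ((n : ℤ) - x) = FF (pcen (fun k => line (g k) n)) c x := by
    intro x
    unfold FF
    simp only [pv_eq]
  rw [e1] at h6 ⊢
  have hper : ∀ q : ℕ, (p : ℤ) ∣ FF (pcen (fun k => line (g k) n)) c (x % p + p * q) := by
    intro q
    induction q with
    | zero => simpa using h6
    | succ q ih =>
      have e2 : x % p + p * (q + 1) = (x % p + p * q) + p := by ring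
      rw [e2]
      exact (FF_per (pcen_VPer _) c hp _).2 ih
  have := hper (x / p)
  rwa [Nat.mod_add_div] at this

lemma CF_pos {m d : ℕ} (g : Fin m → MvPolynomial (Fin 2) ℤ) (c : Fin m → Fin (d + 1) → ℤ) (n w : ℕ)
    (h : NoFixed (system g c) n 0) : 0 < CF (pcen (fun k => line (g k) n)) w c := by
  unfold CF Dw
  have := MP_ge w
  apply mul_pos (by positivity)
  apply prod_pos
  intro p hp
  rw [mem_prN] at hp
  have hp0 : (0 : ℝ) < p := by exact_mod_cast hp.2.pos
  have h1 := kc_ne g c n hp.2 (h p hp.2 hp0)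
  have h2 := kc_le_p (pcen (fun k => line (g k) n)) p c
  have h3 : kc (pcen (fun k => line (g k) n)) p c < p := lt_of_le_of_ne h2 h1
  rw [sub_pos, div_lt_one hp0]
  exact_mod_cast h3

open Classical in
/-- **Every total `n` in a long range is represented as expected, for almost all families.** Let `m ≥ 1`, `A`, `E` and
`δ > 0` be given. For all sufficiently large `d` (in terms of `m, A, E, δ`), all `D` and `ε > 0`, all sufficiently
large `H`, and all polynomials `g_1, …, g_m ∈ ℤ[x, y]` of total degree at most `D` with `|g_k(x, y)| ≤ H (log H) ^ A` for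
all integers `|x|, |y| ≤ (log H) ^ A`: for all but at most a proportion `(log H) ^ (-E)` of the coefficient vectors
`|c_{kj}| ≤ H` the family `f_k(x, y) = g_k(x, y) + ∑_{j ≤ d} c_{kj} x ^ j` has the following properties.

* For EVERY positive integer `n ≤ (log H) ^ A` such that no prime `p > (log log H) / 4` divides
  `f_1(x, n - x) ⋯ f_m(x, n - x)` for all `x`, and for EVERY interval `u < x ≤ v < n` of length at least
  `(log H) ^ (m + δ)`, the number of the `n = x + y` with `x` in this interval and all `|f_k(x, y)|` prime is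
  `(1 + O(ε)) C_n (v - u) / (log H) ^ m`, where `C_n` is the part of the singular series of the polynomials
  `f_k(x, n - x)` over the primes up to `(log log H) / 4`.
* In particular EVERY integer `n` with `(log H) ^ (m + δ) + 1 ≤ n ≤ (log H) ^ A` such that no prime divides
  `f_1(x, n - x) ⋯ f_m(x, n - x)` for all `x` can be written as `n = x + y` with `x, y ≥ 1` and
  `|f_1(x, y)|, …, |f_m(x, y)|` all prime. -/
theorem result (m A E : ℕ) (hm : 1 ≤ m) (δ : ℝ) (hδ : 0 < δ) :
    ∃ d₀ : ℕ, ∀ d : ℕ, d₀ ≤ d → ∀ (D : ℕ) (ε : ℝ), 0 < ε → ∃ H₀ : ℕ, ∀ H : ℕ, H₀ ≤ H →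
    ∀ g : Fin m → MvPolynomial (Fin 2) ℤ, (∀ k, (g k).totalDegree ≤ D) →
    (∀ k, ∀ x y : ℤ, |(x : ℝ)| ≤ Real.log H ^ A → |(y : ℝ)| ≤ Real.log H ^ A →
      |((val (g k) x y : ℤ) : ℝ)| ≤ H * Real.log H ^ A) →
    (((family m d H).filter (fun c => ¬ Good (system g c) H A δ ε)).card : ℝ) ≤ (family m d H).card / Real.log H ^ E := by
  obtain ⟨d0, h0⟩ := uniform m A (E + A + 1) hm δ hδ
  refine ⟨d0, fun d hd D ε hε => ?_⟩
  obtain ⟨ε', hε'⟩ : ∃ x : ℝ, x = min ε (1 / 2) := ⟨_, rfl⟩
  have hε'0 : 0 < ε' := by rw [hε']; exact lt_min hε (by norm_num)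
  have hε'1 : ε' ≤ 1 / 2 := by rw [hε']; exact min_le_right _ _
  have hε'ε : ε' ≤ ε := by rw [hε']; exact min_le_left _ _
  obtain ⟨N0, h1⟩ := h0 d hd A D ε' hε'0
  obtain ⟨N1, h2⟩ := evL _ (Filter.eventually_ge_atTop (2 : ℝ))
  refine ⟨max N0 N1, fun H hH g hgD hgv => ?_⟩
  have hL2 := h2 H (by omega)
  have hfam : family m d H = fam H 1 (0 : Vec m d) := by
    ext a
    rw [mem_fam_shift]
    unfold family
    rw [Fintype.mem_piFinset]
    apply forall_congr'
    intro i
    rw [Fintype.mem_piFinset]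
    apply forall_congr'
    intro j
    rw [mem_Icc]
  rw [hfam]
  set L := Real.log H with hL
  have hL1 : 1 ≤ L := by linarith
  have hL0 : 0 < L := by linarith
  set N : ℕ := ⌊L ^ A⌋₊ with hN
  have hNL : (N : ℝ) ≤ L ^ A := Nat.floor_le (by positivity)
  set Bn : ℕ → Finset (Vec m d) := fun n => (fam H 1 (0 : Vec m d)).filter (fun a =>
      (∀ p : ℕ, p.Prime → Real.log L / 4 < p → kc (pcen (fun k => line (g k) n)) p a ≠ p) ∧
      Fails (pcen (fun k => line (g k) n)) ⌊Real.log L / 4⌋₊ (L ^ A) (L ^ ((m : ℝ) + δ)) L ε' a) with hBn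
  have hLδ : 0 < L ^ ((m : ℝ) + δ) := by positivity
  have hLm : 0 < L ^ m := by positivity
  have hsub : (fam H 1 (0 : Vec m d)).filter (fun c => ¬ Good (system g c) H A δ ε) ⊆ (range (N + 1)).biUnion Bn := by
    intro c hc
    rw [mem_filter] at hc
    obtain ⟨hcf, hng⟩ := hc
    by_contra hnb
    apply hng
    have key : ∀ n : ℕ, (n : ℝ) ≤ L ^ A → NoFixed (system g c) n (Real.log L / 4) → ∀ u v : ℕ, v < n →
        (u : ℝ) + L ^ ((m : ℝ) + δ) ≤ v →
        |(count (system g c) n u v : ℝ) - constant (system g c) n ⌊Real.log L / 4⌋₊ * ((v - u : ℕ) : ℝ) / L ^ m| ≤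
        ε' * (constant (system g c) n ⌊Real.log L / 4⌋₊ * ((v - u : ℕ) : ℝ) / L ^ m) := by
      intro n hn1 hn2 u v hvn huv
      by_contra hbad
      push Not at hbad
      have huv' : u ≤ v := by
        have : (u : ℝ) ≤ v := by linarith
        exact_mod_cast this
      apply hnb
      rw [mem_biUnion]
      refine ⟨n, ?_, ?_⟩
      · rw [mem_range]
        have : n ≤ N := Nat.le_floor hn1
        omega
      · rw [hBn, mem_filter]
        refine ⟨hcf, fun p hp hwp => kc_ne g c n hp (hn2 p hp hwp), u, v - u, ?_, ?_, ?_⟩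
        · rw [show u + (v - u) = v by omega]
          refine le_trans ?_ hn1
          exact_mod_cast hvn.le
        · rw [Nat.cast_sub huv']
          linarith
        · rw [constant_eq, count_eq g c n u v huv' hvn, mul_comm ((v - u : ℕ) : ℝ)]
          exact hbad
    refine ⟨fun n hn1 hn2 u v hvn huv => ?_, fun n hn0 hn1 hn2 => ?_⟩
    · refine (key n hn1 hn2 u v hvn huv).trans ?_
      apply mul_le_mul_of_nonneg_right hε'ε
      rw [← constant_eq]
      have := CF_nonneg (pcen_VPer (fun k => line (g k) n)) c ⌊Real.log L / 4⌋₊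
      positivity
    · have hn3 : NoFixed (system g c) n (Real.log L / 4) := by
        intro p hp _
        apply hn2 p hp
        exact_mod_cast hp.pos
      have hn1' : (1 : ℝ) ≤ n := by linarith
      have hn1n : 1 ≤ n := by exact_mod_cast hn1'
      have hcast : ((n - 1 : ℕ) : ℝ) = (n : ℝ) - 1 := by
        rw [Nat.cast_sub hn1n, Nat.cast_one]
      have h3 := key n hn1 hn3 0 (n - 1) (by omega) (by
        rw [hcast, Nat.cast_zero]
        linarith)
      by_contra hno
      have hc0 : count (system g c) n 0 (n - 1) = 0 := by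
        unfold count
        rw [card_eq_zero, filter_eq_empty_iff]
        rintro x hx ⟨y, hy1, hy2, hy3⟩
        rw [mem_Ioc] at hx
        exact hno ⟨x, y, by omega, hy1, hy2, hy3⟩
      have hCp := CF_pos g c n ⌊Real.log L / 4⌋₊ hn2
      rw [constant_eq] at hCp
      rw [hc0, Nat.sub_zero, hcast, Nat.cast_zero, zero_sub, abs_neg] at h3
      have hpos : 0 < constant (system g c) n ⌊Real.log L / 4⌋₊ * ((n : ℝ) - 1) / L ^ m := by
        apply div_pos (mul_pos hCp _) hLm
        linarith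
      rw [abs_of_pos hpos] at h3
      nlinarith
  have hone : ∀ n ∈ range (N + 1), ((Bn n).card : ℝ) ≤ (fam H 1 (0 : Vec m d)).card / L ^ (E + A + 1) := by
    intro n hn
    rw [mem_range] at hn
    have hnA : (n : ℝ) ≤ L ^ A := le_trans (by exact_mod_cast (by omega : n ≤ N)) hNL
    apply h1 H (by omega) (fun k => line (g k) n) (fun k => line_deg _ _ _ (hgD k))
    intro k x hx1 hxA
    rw [line_eval]
    apply hgv k
    · rw [Int.cast_natCast, abs_of_nonneg (Nat.cast_nonneg _)]
      exact hxA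
    · push_cast
      have hx0 : (0 : ℝ) ≤ x := Nat.cast_nonneg _
      have hn0 : (0 : ℝ) ≤ n := Nat.cast_nonneg _
      rw [abs_le]
      constructor <;> linarith
  have hcard : (((fam H 1 (0 : Vec m d)).filter (fun c => ¬ Good (system g c) H A δ ε)).card : ℝ) ≤
      ∑ n ∈ range (N + 1), ((Bn n).card : ℝ) := by
    have := (card_le_card hsub).trans card_biUnion_le
    exact_mod_cast this
  refine hcard.trans ((sum_le_sum hone).trans ?_)
  rw [sum_const, card_range, nsmul_eq_mul]
  push_cast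
  have hLA : 1 ≤ L ^ A := one_le_pow₀ hL1
  have hF0 : (0 : ℝ) ≤ ((fam H 1 (0 : Vec m d)).card : ℝ) := Nat.cast_nonneg _
  have h4 : (N : ℝ) + 1 ≤ L ^ (A + 1) := by
    calc (N : ℝ) + 1 ≤ 2 * L ^ A := by linarith
      _ ≤ L * L ^ A := by gcongr
      _ = _ := by rw [pow_succ]; ring
  calc ((N : ℝ) + 1) * (((fam H 1 (0 : Vec m d)).card : ℝ) / L ^ (E + A + 1)) ≤
      L ^ (A + 1) * (((fam H 1 (0 : Vec m d)).card : ℝ) / L ^ (E + A + 1)) := by gcongr
    _ = _ := by
        rw [show E + A + 1 = E + (A + 1) by ring, pow_add L E]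
        field_simp

end Pool.Agent.Results.MP_0da313_nt.EveryTotal
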