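import Mathlib
import Pool.Agent.K1H50.XY.Pa

set_option autoImplicit false

/-!
# Fixed linear polynomials on the lines `x + y = n`, up to bounded shifts: every large `n`

The polynomials are `a x + b y + c` with `a ≥ 0` and `b ∈ {0, 1, 2}`, `a ≠ b`; among them are `2 x - 1` and `2 y + 1`,
the polynomials of the Goldbach problem. For every large `n`, more than `k` of more than `18 k / 5` such polynomials
(two of any four) are prime simultaneously, up to bounded shifts of `x`, for at least `n / (log n) ^ K` values of `x`.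

Library (starting file): the coloured Maynard-Tao theorem with the constant `18 / 5` (`Pool.Agent.Y827.RO`), which is
extended to constant terms `b n + c`, `b ≤ 2`, in `Pool.Agent.K1H50.XY`.
-/

namespace Pool.Agent.Results.MP_0da313_nt.FixedLinearFamilies

open Finset Filter Topology

/-- The value of the polynomial `a x + b y + c`, `f = (a, b, c)`, at `(x, y)`. -/
def val (f : ℤ × ℤ × ℤ) (x y : ℤ) : ℤ := f.1 * x + f.2.1 * y + f.2.2

/-- For all large `n`: the polynomials `f(x, n - x) = (a - b) x + (b n + c)`, `f = (a, b, c)` in the family, are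
irreducible in `ℤ[x]` (the coefficients are coprime; `a ≠ b`), and no prime divides their product at all `x`. -/
def Admissible {T : ℕ} (f : Fin T → ℤ × ℤ × ℤ) : Prop :=
  (∀ i, (f i).1 ≠ (f i).2.1) ∧ ∃ N₀ : ℕ, ∀ n : ℕ, N₀ ≤ n →
    (∀ i, IsCoprime ((f i).1 - (f i).2.1) ((f i).2.1 * n + (f i).2.2)) ∧
    ∀ p : ℕ, p.Prime → ∃ x : ℤ, ∀ i, ¬ (p : ℤ) ∣ val (f i) x (n - x)

open Pool.Agent.K1H50.XY

/-- Let `18 k < 5 T` and let `f_1, ..., f_T` be an admissible family of polynomials `a x + b y + c` with `a ≥ 0`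
and `b ∈ {0, 1, 2}`. There are `B`, `K` such that for every large `n` there are a set `I` of at least `k + 1` indices
and shifts `0 ≤ h_i ≤ B` for which at least `n / (log n) ^ K` positive integers `x < n` satisfy `x + h_i < n` and
`|f_i(x + h_i, n - x - h_i)|` is prime, for all `i ∈ I`. -/
theorem result :
    ∀ T k : ℕ, 18 * k < 5 * T → ∀ f : Fin T → ℤ × ℤ × ℤ,
      (∀ i, 0 ≤ (f i).1 ∧ 0 ≤ (f i).2.1 ∧ (f i).2.1 ≤ 2) → Admissible f →
      ∃ B K n₀ : ℕ, ∀ n : ℕ, n₀ ≤ n → ∃ (I : Finset (Fin T)) (h : Fin T → ℕ), k + 1 ≤ I.card ∧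
        (∀ i, h i ≤ B) ∧ (n : ℝ) / Real.log n ^ K ≤ (((Ioo 0 n).filter (fun x : ℕ => ∀ i ∈ I,
          x + h i < n ∧ (val (f i) (x + h i) (n - (x + h i))).natAbs.Prime)).card : ℝ) := by
  classical
  intro T k hTk f hf hadm
  exact partA T k (by omega) hTk f (fun i => ⟨(hf i).1, (hf i).2.1, (hf i).2.2, hadm.1 i⟩) hadm.2

end Pool.Agent.Results.MP_0da313_nt.FixedLinearFamilies
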