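import Mathlib
import Pool.Agent.K1H50.XY.Pa

set_option autoImplicit false

/-!
# Growing families of linear polynomials on the lines `x + y = n`: every large `n`

The polynomials are `a x + b y + c` with `a ≥ 0` and `b ∈ {0, 1, 2}`, `a ≠ b`; among them are `2 x - 1` and `2 y + 1`,
the polynomials of the Goldbach problem. The families may depend on `n`, have at least `C log log n` members and
constant terms up to `n / 100`: for every large `n`, the sets of `k + 1` members which are simultaneously prime at no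
less than `n / (log n) ^ K` points of the line `x + y = n` carry at least the proportion `(5 / 18) ^ k - ε`
(`1 / 3 - ε` for pairs) of the total mass of the Bateman-Horn constants on the line.

Libraries (starting files): the coloured Maynard-Tao theorem with the constant `18 / 5` (`Pool.Agent.Y827.RO`), the
density theorem `Pool.Agent.H362R2.CM.dens`, the comparison of the masses (`Pool.Agent.H362R2.R1`).
-/

namespace Pool.Agent.Results.MP_0da313_nt.GrowingLinearFamilies

open Finset Filter Topology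

/-- The value of the polynomial `a x + b y + c`, `f = (a, b, c)`, at `(x, y)`. -/
def val (f : ℤ × ℤ × ℤ) (x y : ℤ) : ℤ := f.1 * x + f.2.1 * y + f.2.2

/-- `f = (a, b, c)` with `0 ≤ a ≤ A`, `0 ≤ b ≤ 2`, `a ≠ b`, `|c| ≤ n / 100`, and `f(x, n - x) = (a - b) x + (b n + c)`
is irreducible in `ℤ[x]`. -/
def Allowed (A n : ℕ) (f : ℤ × ℤ × ℤ) : Prop :=
  0 ≤ f.1 ∧ f.1 ≤ A ∧ 0 ≤ f.2.1 ∧ f.2.1 ≤ 2 ∧ f.1 ≠ f.2.1 ∧ 100 * |f.2.2| ≤ n ∧
    IsCoprime (f.1 - f.2.1) (f.2.1 * n + f.2.2)

open Classical in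
/-- The number of the positive integers `x < n` such that `|f(x, n - x)|` is prime for every `f ∈ F`. -/
noncomputable def count (F : Finset (ℤ × ℤ × ℤ)) (n : ℕ) : ℕ :=
  ((Ioo 0 n).filter (fun x : ℕ => ∀ f ∈ F, (val f x ((n : ℤ) - x)).natAbs.Prime)).card

/-- The number of the `x` modulo `p` with `∏ f(x, n - x) ≡ 0 (mod p)`. -/
noncomputable def omega (F : Finset (ℤ × ℤ × ℤ)) (n p : ℕ) : ℕ :=
  ((Icc 1 p).filter (fun x : ℕ => (p : ℤ) ∣ ∏ f ∈ F, val f x ((n : ℤ) - x))).card

/-- The partial product, over the primes `p ≤ z`, of the Bateman-Horn constant of `F` on the line `x + y = n`. -/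
noncomputable def partialC (F : Finset (ℤ × ℤ × ℤ)) (n z : ℕ) : ℝ :=
  ∏ p ∈ (Icc 1 z).filter Nat.Prime, (1 - (omega F n p : ℝ) / p) / (1 - 1 / (p : ℝ)) ^ F.card

/-- The Bateman-Horn constant of `F` on the line `x + y = n`. -/
noncomputable def CF (n : ℕ) (F : Finset (ℤ × ℤ × ℤ)) : ℝ := limUnder atTop (partialC F n)

/-- The proportion: `1 / 3` for pairs, `(5 / 18) ^ k` for sets of `k + 1` polynomials, `k ≥ 2`. -/
noncomputable def share (k : ℕ) : ℝ := if k = 1 then 1 / 3 else (5 / 18) ^ k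

open Pool.Agent.K1H50.XY Pool.Agent.H362R2.R1

open Classical in
lemma part_eq {A n : ℕ} (hn : 100 ≤ n) (F : Finset (ℤ × ℤ × ℤ)) (hF : ∀ f ∈ F, Allowed A n f) :
    partialC F n = fun z : ℕ => ∏ p ∈ (Icc 1 z).filter Nat.Prime, lc (F.image (pr n)) p := by
  funext z
  unfold partialC
  apply prod_congr rfl
  intro p hp
  have hp' := (mem_filter.1 hp).2
  have h1 : omega F n p = om (F.image (pr n)) p := om_pr F n hp'
  unfold lc
  rw [h1, card_image_of_injOn fun f hf g hg h => pr_inj hn (hF f hf) (hF g hg) h]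

open Classical in
lemma im_pos {A n : ℕ} (hn : 100 ≤ n) (F : Finset (ℤ × ℤ × ℤ)) (hF : ∀ f ∈ F, Allowed A n f) :
    (∀ x ∈ F.image (pr n), 0 < x.1) ∧ ∀ x ∈ F.image (pr n), IsCoprime x.1 x.2 := by
  constructor
  · intro x hx
    obtain ⟨f, hf, rfl⟩ := Finset.mem_image.1 hx
    exact (pr_big hn (hF f hf)).1
  · intro x hx
    obtain ⟨f, hf, rfl⟩ := Finset.mem_image.1 hx
    exact (pr_big hn (hF f hf)).2.2.2.1

open Classical in
lemma tend {A n : ℕ} (hn : 100 ≤ n) (F : Finset (ℤ × ℤ × ℤ)) (hF : ∀ f ∈ F, Allowed A n f) :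
    Tendsto (partialC F n) atTop (𝓝 (BH (F.image (pr n)))) := by
  rw [part_eq hn F hF]
  exact Pool.Agent.K1H50.LM.BH_tendsto _ (im_pos hn F hF).1 (im_pos hn F hF).2

open Classical in
lemma CF_eq {A n : ℕ} (hn : 100 ≤ n) (F : Finset (ℤ × ℤ × ℤ)) (hF : ∀ f ∈ F, Allowed A n f) :
    CF n F = BH (F.image (pr n)) :=
  (tend hn F hF).limUnder_eq

lemma cls (k : ℕ) (hk : 1 ≤ k) (e : ℝ) (he : 0 < e) : ClsP k (share k - e) := by
  unfold share
  split_ifs with h
  · subst h
    exact cls3 e he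
  · exact cls5 k hk e he

/-- `1 + log log (3 n) ≤ 3 log log n` -/
lemma loglog : ∀ᶠ n : ℕ in atTop, 1 + Real.log (Real.log (3 * n)) ≤ 3 * Real.log (Real.log n) := by
  have h1 : Tendsto (fun n : ℕ => Real.log (Real.log n)) atTop atTop :=
    Real.tendsto_log_atTop.comp (Real.tendsto_log_atTop.comp tendsto_natCast_atTop_atTop)
  filter_upwards [h1.eventually_ge_atTop 1, eventually_ge_atTop 3] with n hn hn3
  have hnr : (3 : ℝ) ≤ n := by exact_mod_cast hn3
  have hl0 : 0 < Real.log n := Real.log_pos (by linarith)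
  have h2 : Real.log (3 * n) ≤ 2 * Real.log n := by
    have : Real.log (3 * n) ≤ Real.log ((n : ℝ) ^ 2) := Real.log_le_log (by linarith) (by nlinarith)
    rw [Real.log_pow] at this
    push_cast at this
    linarith
  have h3 : 0 < Real.log (3 * n) := Real.log_pos (by linarith)
  have h4 : Real.log (Real.log (3 * n)) ≤ Real.log 2 + Real.log (Real.log n) := by
    rw [← Real.log_mul (by norm_num) hl0.ne']
    exact Real.log_le_log h3 h2
  have h5 : Real.log 2 ≤ 1 := by
    have := Real.log_two_lt_d9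
    linarith
  linarith

/-- Let `k ≥ 1` and `ε > 0`. There are `C > 0` and `K` such that for every `A`, every large `n` and EVERY finite set
`𝓕` of at least `C log log n` allowed polynomials: the products `C_F` (on the line `x + y = n`) converge, the sum of
`C_F` over the sets `F` of `k + 1` members of `𝓕` is at least `1 - ε` times the number of these sets, and the sum of
`C_F` over those `F` for which there are at least `n / (log n) ^ K` positive integers `x < n` with all
`|f(x, n - x)|`, `f ∈ F`, prime is at least `share k - ε` times the sum over all `F`. -/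
theorem result :
    ∀ k : ℕ, 1 ≤ k → ∀ ε : ℝ, 0 < ε → ∃ C : ℝ, 0 < C ∧ ∃ K : ℕ, ∀ A : ℕ, ∃ n₀ : ℕ, ∀ n : ℕ, n₀ ≤ n →
      ∀ 𝓕 : Finset (ℤ × ℤ × ℤ), (∀ f ∈ 𝓕, Allowed A n f) → C * Real.log (Real.log n) ≤ 𝓕.card →
        (∀ F ⊆ 𝓕, Tendsto (partialC F n) atTop (𝓝 (CF n F))) ∧
        (1 - ε) * (𝓕.card.choose (k + 1)) ≤ ∑ F ∈ 𝓕.powersetCard (k + 1), CF n F ∧
        (share k - ε) * ∑ F ∈ 𝓕.powersetCard (k + 1), CF n F ≤
          ∑ F ∈ (open Classical in (𝓕.powersetCard (k + 1)).filter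
            (fun F => (n : ℝ) / Real.log n ^ K ≤ (count F n : ℝ))), CF n F := by
  classical
  intro k hk ε hε
  have hs0 : 0 < share k := by
    unfold share; split_ifs <;> positivity
  have hs1 : share k ≤ 1 := by
    unfold share
    split_ifs
    · norm_num
    · exact pow_le_one₀ (by norm_num) (by norm_num)
  obtain ⟨C, hC, K, h⟩ := mainU k hk (share k) hs0 hs1 (fun e he => cls k hk e he) ε hε
  refine ⟨3 * C, by positivity, K + 1, fun A => ?_⟩
  obtain ⟨n1, h⟩ := eventually_atTop.1 (h (A + 2))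
  obtain ⟨n2, hsize⟩ := eventually_atTop.1 (size_ev K)
  obtain ⟨n3, hll⟩ := eventually_atTop.1 loglog
  refine ⟨n1 + n2 + n3 + A + 102, fun n hn 𝓕 hF hcard => ?_⟩
  have hn100 : 100 ≤ n := by omega
  have hinj : Set.InjOn (pr n) (𝓕 : Set (ℤ × ℤ × ℤ)) := fun f hf g hg h =>
    pr_inj hn100 (hF f hf) (hF g hg) h
  have hCF : ∀ F ⊆ 𝓕, CF n F = BH (F.image (pr n)) := fun F hF' =>
    CF_eq hn100 F (fun f hf => hF f (hF' hf))
  have hc : (𝓕.image (pr n)).card = 𝓕.card := card_image_of_injOn hinj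
  have h1 := h (9 * n / 5) (by omega) (3 * n) (𝓕.image (pr n)) (by
    have : (100 : ℝ) ≤ n := by exact_mod_cast hn100
    linarith) (by
    intro x hx
    obtain ⟨f, hf, rfl⟩ := Finset.mem_image.1 hx
    exact ⟨pr_big hn100 (hF f hf), pr_size hn100 (by omega) (hF f hf)⟩) (by
    rw [hc]
    refine le_trans ?_ hcard
    have := hll n (by omega)
    nlinarith)
  rw [hc] at h1
  have e1 := Pool.Agent.K1H50.LM.sum_img (pr n) 𝓕 hinj (k + 1) (CF n) BH (fun _ => True) (fun _ => True) hCF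
    (fun _ _ => Iff.rfl)
  simp only [filter_true] at e1
  have e2 := Pool.Agent.K1H50.LM.sum_img (pr n) 𝓕 hinj (k + 1) (CF n) BH
    (fun F => GoodX K (9 * n / 5) (F.image (pr n))) (GoodX K (9 * n / 5)) hCF (fun _ _ => Iff.rfl)
  have hnn : ∀ F ⊆ 𝓕, 0 ≤ CF n F := fun F hF' => by
    rw [hCF F hF']
    have := im_pos hn100 F (fun f hf => hF f (hF' hf))
    exact BH_nonneg _ this.1 this.2
  have hcnt : ∀ F ⊆ 𝓕, GoodX K (9 * n / 5) (F.image (pr n)) →
      (n : ℝ) / Real.log n ^ (K + 1) ≤ (count F n : ℝ) := by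
    intro F hF' hg
    unfold GoodX at hg
    refine (hsize n (by omega)).trans (hg.trans ?_)
    rw [Nat.cast_le]
    unfold cntX count
    apply card_le_card
    intro x hx
    rw [mem_filter, mem_Icc] at hx
    obtain ⟨⟨hx1, -⟩, -, hx2, hx3⟩ := hx
    have hxn : 1000 * x ≤ 918 * n := by
      have e1 : (5 : ℝ) * ((9 * n / 5 : ℕ) : ℝ) ≤ 9 * n := by
        exact_mod_cast (by omega : 5 * (9 * n / 5) ≤ 9 * n)
      have : (1000 : ℝ) * x ≤ 918 * n := by linarith
      exact_mod_cast this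
    rw [mem_filter, mem_Ioo]
    refine ⟨⟨by omega, by omega⟩, fun f hf => ?_⟩
    have h5 := hx3 (pr n f) (mem_image_of_mem _ hf)
    have h6 := pr_val n f x
    unfold Pool.Agent.K1H50.XY.val at h6
    unfold val
    rw [h6]
    exact h5
  refine ⟨fun F hF' => ?_, ?_, ?_⟩
  · rw [hCF F hF']
    exact tend hn100 F (fun f hf => hF f (hF' hf))
  · rw [e1]
    exact h1.1
  · rw [e1]
    refine h1.2.trans ?_
    rw [← e2]
    apply sum_le_sum_of_subset_of_nonneg
    · intro F hFm
      rw [mem_filter, mem_powersetCard] at hFm ⊢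
      exact ⟨hFm.1, hcnt F hFm.1.1 hFm.2⟩
    · intro F hFm _
      rw [mem_filter, mem_powersetCard] at hFm
      exact hnn F hFm.1.1

end Pool.Agent.Results.MP_0da313_nt.GrowingLinearFamilies
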