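import Pool.Agent.K1H73.LS.PatP
import Pool.Agent.R463.Line

/-!
# Residue patterns of consecutive almost prime points along the line `x + y = n`

Let `f_1, ..., f_m` be arbitrary polynomials in `x`, `y`. For every prime `l` and every `k`, for all large admissible `n`
and all intervals of length at least `n ^ θ`: the residue classes modulo `l` of `k + 1` consecutive `x` for which no
value `f_i (x, n - x)` has a prime factor `≤ n ^ (1 / r)` form every admissible pattern asymptotically equally often.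

The theorem on residue patterns for one sieve problem is the one of `Pool.Agent.V11146.MK` (`gen_pat`) of the starting
files, used there for fixed systems of polynomials; the sizes of the polynomials on the lines are from
`Pool.Agent.R463.PS` (`lns_system`). New here: the version for systems which depend on the size of the interval,
uniformly (`pat_unif`, `pat_polys`, `patP` of `K1H73.LS`), and the application.
-/

set_option autoImplicit false

namespace Pool.Agent.Results.MP_0da313_nt.ResiduePatterns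

open Polynomial Finset Filter
open scoped Polynomial.Bivariate
open Pool.Agent.K1H73
open Pool.Agent.R463.PS (lns lns_system)

/-- the polynomial `g_{i,n} (x) = f_i (x, n - x)`; the outer variable of `f i` is `y` -/
noncomputable def gp {m : ℕ} (f : Fin m → ℤ[X][Y]) (n : ℕ) (i : Fin m) : ℤ[X] :=
  (f i).eval (C (n : ℤ) - X)

/-- the conditions on `n`: all `g_{i,n}` are irreducible and not constant, and for every prime `p` there is
`x` such that `p` divides no `g_{i,n} (x)` -/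
def Admissible {m : ℕ} (f : Fin m → ℤ[X][Y]) (n : ℕ) : Prop :=
  (∀ i, Irreducible (gp f n i)) ∧ (∀ i, 1 ≤ (gp f n i).natDegree) ∧
    ∀ p : ℕ, p.Prime → ∃ x : ℕ, ∀ i, ¬ (p : ℤ) ∣ (gp f n i).eval (x : ℤ)

/-- no value `f_i (x, n - x)` has a prime factor `p ≤ z` -/
def Good {m : ℕ} (f : Fin m → ℤ[X][Y]) (n z x : ℕ) : Prop :=
  ∀ p : ℕ, p.Prime → p ≤ z → ∀ i, ¬ (p : ℤ) ∣ (gp f n i).eval (x : ℤ)

open Classical in
/-- the residue classes `c` modulo `l` for which `l` divides no `f_i (c, n - c)` -/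
noncomputable def Cl {m : ℕ} (f : Fin m → ℤ[X][Y]) (n l : ℕ) : Finset ℕ :=
  (range l).filter (fun c : ℕ => ∀ i, ¬ (l : ℤ) ∣ (gp f n i).eval (c : ℤ))

/-- the density: the product of `|Cl p| / p` over the primes `p ≤ z` -/
noncomputable def V {m : ℕ} (f : Fin m → ℤ[X][Y]) (n z : ℕ) : ℝ :=
  ∏ p ∈ (Icc 1 z).filter Nat.Prime, ((Cl f n p).card : ℝ) / p

/-- `p 0 < p 1 < … < p k` are consecutive elements of `S` -/
def Consecutive (S : ℕ → Prop) (k : ℕ) (p : ℕ → ℕ) : Prop :=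
  (∀ i ≤ k, S (p i)) ∧ ∀ i < k, p i < p (i + 1) ∧ ∀ m, p i < m → m < p (i + 1) → ¬ S m

open Classical in
/-- the number of the good `x` in `(u, u + H]` -/
noncomputable def total {m : ℕ} (f : Fin m → ℤ[X][Y]) (n z u H : ℕ) : ℕ := ((Ioc u (u + H)).filter (Good f n z)).card

open Classical in
/-- the number of the good `x` in `(u, u + H]` such that `x` and the `k` next good integers are congruent to
`c 0, …, c k` modulo `l` -/
noncomputable def count {m : ℕ} (f : Fin m → ℤ[X][Y]) (n z k l : ℕ) (c : ℕ → ℕ) (u H : ℕ) : ℕ :=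
  ((Ioc u (u + H)).filter (fun g => ∃ p : ℕ → ℕ, p 0 = g ∧ Consecutive (Good f n z) k p ∧
    ∀ i ≤ k, p i % l = c i)).card

lemma gp_eq {m : ℕ} (f : Fin m → ℤ[X][Y]) (n : ℕ) : gp f n = lns f n := rfl

lemma good_eq {m : ℕ} (f : Fin m → ℤ[X][Y]) (n z : ℕ) :
    Pool.Agent.TH464.PO.Sf (Pool.Agent.W123.RU.Poly.Q (lns f n)) z = Good f n z := by
  funext x
  apply propext
  unfold Good Pool.Agent.TH464.PO.Sf Pool.Agent.W123.RU.Poly.Q
  rw [gp_eq]
  constructor
  · intro h p hp hpz i hd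
    apply h p _ ⟨i, hd⟩
    unfold Pool.Agent.H373R2.T7.pz
    rw [mem_filter, mem_Icc]
    exact ⟨⟨hp.pos, hpz⟩, hp⟩
  · rintro h p hp ⟨i, hd⟩
    unfold Pool.Agent.H373R2.T7.pz at hp
    rw [mem_filter, mem_Icc] at hp
    exact h p hp.2 hp.1.2 i hd

lemma Cl_eq {m : ℕ} (f : Fin m → ℤ[X][Y]) (n l : ℕ) :
    Pool.Agent.V11146.MK.cls (Pool.Agent.W123.RU.Poly.Q (lns f n)) l = Cl f n l := by
  classical
  ext c
  rw [Pool.Agent.V11146.MK.mem_cls]
  unfold Cl Pool.Agent.W123.RU.Poly.Q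
  rw [mem_filter, mem_range, gp_eq]
  push Not
  rfl

lemma V_eq {m : ℕ} (f : Fin m → ℤ[X][Y]) (n z : ℕ) :
    Pool.Agent.W123.RP.Vq (Pool.Agent.W123.RU.Poly.Q (lns f n)) z = V f n z := by
  unfold Pool.Agent.W123.RP.Vq V Pool.Agent.H373R2.T7.pz
  apply Finset.prod_congr rfl
  intro p hp
  have hpp := (mem_filter.1 hp).2
  have hp0 : (p : ℝ) ≠ 0 := by exact_mod_cast hpp.ne_zero
  have h := Pool.Agent.V11146.MK.card_cls (Pool.Agent.W123.RU.Poly.Q (lns f n)) p
  rw [Cl_eq] at h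
  have h2 : ((Cl f n p).card : ℝ) + (Pool.Agent.H373R2.T7.nuB (Pool.Agent.W123.RU.Poly.Q (lns f n)) p : ℝ) = p := by
    exact_mod_cast h
  rw [eq_div_iff hp0, sub_mul, one_mul, div_mul_cancel₀ _ hp0]
  linarith

/-- the sizes of the values -/
lemma val_le (g : ℤ[X]) (D n B : ℕ) (E : ℝ) (hD : g.natDegree ≤ D)
    (hg : ∀ j, |((g.coeff j : ℤ) : ℝ)| ≤ (n : ℝ) ^ E) (hB : E + D + 1 ≤ B) (hn : D + 1 ≤ n) (x : ℕ) (hx : x ≤ n) :
    (g.eval (x : ℤ)).natAbs ≤ n ^ B := by
  have hn1 : (1 : ℝ) ≤ n := by exact_mod_cast (by omega : 1 ≤ n)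
  have hn0 : (0 : ℝ) < n := by linarith
  have h1 : (((g.eval (x : ℤ)).natAbs : ℕ) : ℝ) = |((g.eval (x : ℤ) : ℤ) : ℝ)| := by
    rw [← Int.cast_abs, Int.abs_eq_natAbs]
    simp
  have h2 : |((g.eval (x : ℤ) : ℤ) : ℝ)| ≤ (D + 1) * ((n : ℝ) ^ E * (n : ℝ) ^ D) := by
    rw [eval_eq_sum_range]
    push_cast
    refine (Finset.abs_sum_le_sum_abs _ _).trans ?_
    have h3 : ∀ j ∈ range (g.natDegree + 1), |((g.coeff j : ℤ) : ℝ) * (x : ℝ) ^ j| ≤ (n : ℝ) ^ E * (n : ℝ) ^ D := by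
      intro j hj
      rw [abs_mul]
      apply mul_le_mul (hg j) _ (abs_nonneg _) (by positivity)
      rw [abs_of_nonneg (by positivity)]
      have h4 : (x : ℝ) ^ j ≤ (n : ℝ) ^ j := pow_le_pow_left₀ (Nat.cast_nonneg x) (by exact_mod_cast hx) j
      have h5 : j ≤ D := by
        have := mem_range.1 hj
        omega
      exact h4.trans (pow_le_pow_right₀ hn1 h5)
    refine (Finset.sum_le_sum h3).trans ?_
    rw [Finset.sum_const, card_range, nsmul_eq_mul]
    apply mul_le_mul_of_nonneg_right _ (by positivity)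
    exact_mod_cast (by omega : g.natDegree + 1 ≤ D + 1)
  have h3 : (D + 1) * ((n : ℝ) ^ E * (n : ℝ) ^ D) ≤ (n : ℝ) ^ (B : ℕ) := by
    have h4 : ((D : ℝ) + 1) ≤ n := by exact_mod_cast hn
    calc (D + 1) * ((n : ℝ) ^ E * (n : ℝ) ^ D) ≤ (n : ℝ) * ((n : ℝ) ^ E * (n : ℝ) ^ D) :=
          mul_le_mul_of_nonneg_right h4 (by positivity)
      _ = (n : ℝ) ^ (E + D + 1) := by
          rw [Real.rpow_add hn0, Real.rpow_add hn0, Real.rpow_one, Real.rpow_natCast]
          ring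
      _ ≤ (n : ℝ) ^ (B : ℝ) := Real.rpow_le_rpow_of_exponent_le hn1 hB
      _ = (n : ℝ) ^ (B : ℕ) := Real.rpow_natCast _ _
  have h4 : (((g.eval (x : ℤ)).natAbs : ℕ) : ℝ) ≤ ((n ^ B : ℕ) : ℝ) := by
    rw [h1]
    push_cast
    exact h2.trans h3
  exact_mod_cast h4

/-- few prime factors -/
theorem few {X z r C : ℕ} (hr : 1 ≤ r) (hz : z = ⌊(X : ℝ) ^ (1 / (r : ℝ))⌋₊) (hz1 : 1 ≤ z) {x : ℕ}
    (hx0 : x ≠ 0) (hx : x ≤ X ^ C) (h : ∀ l : ℕ, l.Prime → l ≤ z → ¬ l ∣ x) :
    x.primeFactorsList.length ≤ r * C := by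
  by_contra hcon
  rw [not_le] at hcon
  have h1 : ∀ l ∈ x.primeFactorsList, z + 1 ≤ l := by
    intro l hl
    by_contra h2
    exact h l (Nat.prime_of_mem_primeFactorsList hl) (by omega) (Nat.dvd_of_mem_primeFactorsList hl)
  have h2 : (z + 1) ^ x.primeFactorsList.length ≤ x := by
    have h3 : (z + 1) ^ x.primeFactorsList.length ≤ x.primeFactorsList.prod :=
      List.pow_card_le_prod _ _ h1
    rwa [Nat.prod_primeFactorsList hx0] at h3
  have h4 : (z + 1) ^ (r * C + 1) ≤ (z + 1) ^ x.primeFactorsList.length := Nat.pow_le_pow_right (by omega) (by omega)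
  have h5 : (X : ℝ) < ((z + 1 : ℕ) : ℝ) ^ r := by
    have h6 : (X : ℝ) ^ (1 / (r : ℝ)) < ((z + 1 : ℕ) : ℝ) := by
      rw [hz]
      push_cast
      exact Nat.lt_floor_add_one _
    have h7 : ((X : ℝ) ^ (1 / (r : ℝ))) ^ r < ((z + 1 : ℕ) : ℝ) ^ r :=
      pow_lt_pow_left₀ h6 (by positivity) (by omega)
    rwa [← Real.rpow_natCast, ← Real.rpow_mul (Nat.cast_nonneg X), one_div,
      inv_mul_cancel₀ (by positivity), Real.rpow_one] at h7
  have h6 : X < (z + 1) ^ r := by exact_mod_cast h5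
  have h7 : X ^ C ≤ (z + 1) ^ (r * C) := by
    rw [pow_mul]
    exact Nat.pow_le_pow_left h6.le C
  have h8 : (z + 1) ^ (r * C) < (z + 1) ^ (r * C + 1) := Nat.pow_lt_pow_right (by omega) (by omega)
  omega

/-- **Residue patterns along the lines `x + y = n`.** Let `f_1, ..., f_m` be arbitrary polynomials in `x`, `y`, `l` a
prime and `k` an integer. There is `B` such that for `δ, θ, ε > 0` there is `r₀` such that for all `r ≥ r₀`, all `C₀` and
all large `n` which are admissible, for which no two of the polynomials `f_i (x, n - x)` are translates of each other by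
some `1 ≤ t ≤ n ^ δ`, up to the sign, and `V ≤ C₀ / log n` (`z = n ^ (1 / r)`, integer part): for the good `x ≤ n` the
values `f_i (x, n - x)` are not `0` and have at most `r B` prime factors, with multiplicity, and for ALL intervals
`(u, u + H]` with `H ≥ n ^ θ`: there are good `x` in the interval, and each of the patterns of residue classes modulo `l`
of `k + 1` consecutive good integers which consist of admissible classes occurs with the same frequency, up to `ε`. -/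
theorem result (m : ℕ) (f : Fin m → ℤ[X][Y]) (l : ℕ) (hl : l.Prime) (k : ℕ) :
    ∃ B : ℕ, ∀ δ θ ε : ℝ, 0 < δ → 0 < θ → 0 < ε →
    ∃ r₀ : ℕ, ∀ r : ℕ, r₀ ≤ r → ∀ C₀ : ℝ, ∀ᶠ n : ℕ in atTop, Admissible f n →
      (∀ i j, ∀ t : ℕ, 1 ≤ t → (t : ℝ) ≤ (n : ℝ) ^ δ → gp f n i ≠ (gp f n j).comp (X + C (t : ℤ)) ∧
        gp f n i ≠ -(gp f n j).comp (X + C (t : ℤ))) →
      ∀ z : ℕ, z = ⌊(n : ℝ) ^ (1 / (r : ℝ))⌋₊ → V f n z ≤ C₀ / Real.log n →
      (∀ x : ℕ, x ≤ n → Good f n z x → ∀ i, (gp f n i).eval (x : ℤ) ≠ 0 ∧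
        ((gp f n i).eval (x : ℤ)).natAbs.primeFactorsList.length ≤ r * B) ∧
      ∀ u H : ℕ, (n : ℝ) ^ θ ≤ H → 0 < total f n z u H ∧ ∀ c : ℕ → ℕ, (∀ i ≤ k, c i ∈ Cl f n l) →
        |(count f n z k l c u H : ℝ) - total f n z u H / ((Cl f n l).card : ℝ) ^ (k + 1)| ≤
          ε * total f n z u H := by
  classical
  obtain ⟨D, E, hE, hsys⟩ := lns_system f
  refine ⟨⌈E⌉₊ + D + 1, fun δ θ ε hδ hθ hε => ?_⟩
  obtain ⟨r₀, h⟩ := LS.patP m D l k hl E δ θ hE hδ hθ ε hε
  refine ⟨r₀ + 1, fun r hr C₀ => ?_⟩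
  have hz2 : ∀ᶠ n : ℕ in atTop, (2 : ℝ) ≤ (n : ℝ) ^ (1 / (r : ℝ)) := by
    have : (0 : ℝ) < 1 / (r : ℝ) := by
      have : (0 : ℝ) < r := by exact_mod_cast (by omega : 0 < r)
      positivity
    exact ((tendsto_rpow_atTop this).comp tendsto_natCast_atTop_atTop).eventually_ge_atTop 2
  filter_upwards [h r (by omega) C₀, hsys, hz2, eventually_ge_atTop (D + 1)] with n h1 h2 h5 h6 hadm htr z hz hV
  have hS := h2 _ hadm.1 hadm.2.1 hadm.2.2 htr
  have hz3 : 2 ≤ z := by
    rw [hz]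
    exact Nat.le_floor (by exact_mod_cast h5)
  refine ⟨fun x hx hg i => ?_, fun u H hH => ?_⟩
  · have h0 : (gp f n i).eval (x : ℤ) ≠ 0 := by
      intro h0
      apply hg 2 Nat.prime_two hz3 i
      rw [h0]
      exact dvd_zero _
    refine ⟨h0, few (C := ⌈E⌉₊ + D + 1) (by omega) hz (by omega) (Int.natAbs_ne_zero.2 h0) ?_ ?_⟩
    · apply val_le (gp f n i) D n _ E (hS.deg i).2 (fun j => hS.hgt i j) _ h6 x hx
      push_cast
      have := Nat.le_ceil E
      linarith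
    · intro p hp hpz hd
      exact hg p hp hpz i (Int.natCast_dvd.2 hd)
  · rw [← V_eq] at hV
    have h3 := h1 (lns f n) hS.us z hz hV u H hH
    rw [good_eq, Cl_eq] at h3
    exact h3

end Pool.Agent.Results.MP_0da313_nt.ResiduePatterns
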